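import Pool.Agent.U722.FF.Stm2

set_option autoImplicit false

namespace Pool.Agent.U630.FSP

open U722.FF Matrix

section ring

variable {A : Type} [CommRing A]

lemma sq_eq (w : Matrix (Fin 2) (Fin 2) A) (hd : w.det = 1) : w * w = w.trace • w - 1 := by
  rw [Matrix.det_fin_two] at hd
  ext i j
  fin_cases i <;> fin_cases j <;>
    simp [Matrix.mul_apply, Fin.sum_univ_two, Matrix.trace_fin_two]
  · linear_combination -hd
  · ring
  · ring
  · linear_combination -hd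

lemma tr_rec (w : Matrix (Fin 2) (Fin 2) A) (hd : w.det = 1) (k : ℕ) :
    (w ^ (k + 2)).trace = w.trace * (w ^ (k + 1)).trace - (w ^ k).trace := by
  have h : w ^ (k + 2) = w.trace • w ^ (k + 1) - w ^ k := by
    rw [pow_add, pow_two, sq_eq w hd, mul_sub, mul_one, mul_smul_comm, ← pow_succ]
  rw [h, Matrix.trace_sub, Matrix.trace_smul, smul_eq_mul]

lemma tr_pow {K : Type} [Field K] (f : A →+* K) (l m : K) (w : Matrix (Fin 2) (Fin 2) A)
    (hd : w.det = 1) (hs : f w.trace = l + m) (hp : l * m = 1) : ∀ k : ℕ,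
    f ((w ^ k).trace) = l ^ k + m ^ k ∧ f ((w ^ (k + 1)).trace) = l ^ (k + 1) + m ^ (k + 1)
  | 0 => by
    refine ⟨?_, ?_⟩
    · simp only [pow_zero, Matrix.trace_fin_two, Matrix.one_apply_eq, map_add, map_one]
    · simpa using hs
  | k + 1 => by
    obtain ⟨h1, h2⟩ := tr_pow f l m w hd hs hp k
    refine ⟨h2, ?_⟩
    rw [tr_rec w hd, map_sub, map_mul, h1, h2, hs]
    linear_combination (l ^ k + m ^ k) * hp

lemma inv_det (w : GL (Fin 2) A) (hd : (w : Matrix (Fin 2) (Fin 2) A).det = 1) :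
    ((w⁻¹ : GL (Fin 2) A) : Matrix (Fin 2) (Fin 2) A) =
      (w : Matrix (Fin 2) (Fin 2) A).adjugate := by
  rw [Matrix.coe_units_inv, Matrix.inv_def, hd, Ring.inverse_one, one_smul]

lemma tr_zpow {K : Type} [Field K] (f : A →+* K) (l m : K) (w : GL (Fin 2) A)
    (hd : (w : Matrix (Fin 2) (Fin 2) A).det = 1)
    (hs : f (w : Matrix (Fin 2) (Fin 2) A).trace = l + m) (hp : l * m = 1) (p : ℤ) :
    f (((w ^ p : GL (Fin 2) A) : Matrix (Fin 2) (Fin 2) A).trace) =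
      l ^ p.natAbs + m ^ p.natAbs := by
  rcases Int.natAbs_eq p with h | h
  · have h1 : w ^ p = w ^ p.natAbs := by
      rw [← zpow_natCast, ← h]
    rw [h1, Units.val_pow_eq_pow_val]
    exact (tr_pow f l m _ hd hs hp _).1
  · have h1 : w ^ p = (w⁻¹) ^ p.natAbs := by
      rw [inv_pow, ← zpow_natCast, ← _root_.zpow_neg, ← h]
    rw [h1, Units.val_pow_eq_pow_val]
    refine (tr_pow f l m _ ?_ ?_ hp _).1
    · rw [inv_det w hd, Matrix.det_fin_two, Matrix.adjugate_fin_two]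
      rw [Matrix.det_fin_two] at hd
      simp
      linear_combination hd
    · rw [inv_det w hd, Matrix.trace_fin_two, Matrix.adjugate_fin_two, ← hs,
        Matrix.trace_fin_two]
      simp [add_comm]

lemma pow_one_add (N : Matrix (Fin 2) (Fin 2) A) (hN : N * N = 0) : ∀ k : ℕ,
    (1 + N) ^ k = 1 + (k : ℤ) • N
  | 0 => by simp
  | k + 1 => by
    rw [pow_succ, pow_one_add N hN k, add_mul, one_mul, mul_add, mul_one, smul_mul_assoc, hN,
      smul_zero, add_zero]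
    push_cast
    rw [add_smul, one_smul]
    abel

lemma zpow_one_add (x : GL (Fin 2) A) (N : Matrix (Fin 2) (Fin 2) A) (hN : N * N = 0)
    (hx : (x : Matrix (Fin 2) (Fin 2) A) = 1 + N) (p : ℤ) :
    ((x ^ p : GL (Fin 2) A) : Matrix (Fin 2) (Fin 2) A) = 1 + p • N := by
  rcases Int.natAbs_eq p with h | h
  · have h1 : x ^ p = x ^ p.natAbs := by
      rw [← zpow_natCast, ← h]
    rw [h1, Units.val_pow_eq_pow_val, hx, pow_one_add N hN, ← h]
  · have h1 : x ^ p = (x⁻¹) ^ p.natAbs := by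
      rw [inv_pow, ← zpow_natCast, ← _root_.zpow_neg, ← h]
    have h2 : ((x⁻¹ : GL (Fin 2) A) : Matrix (Fin 2) (Fin 2) A) = 1 + (-N) := by
      refine Units.inv_eq_of_mul_eq_one_right ?_
      rw [hx, add_mul, one_mul, mul_add, mul_one, mul_neg, hN, neg_zero, add_zero]
      abel
    rw [h1, Units.val_pow_eq_pow_val, h2, pow_one_add (-N) (by rw [neg_mul_neg, hN]), smul_neg]
    rw [← neg_smul, ← h]

end ring

lemma root_unity {K : Type} [Field K] (l m : K) (hp : l * m = 1) (a b : ℕ) (ha : a ≠ b)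
    (h : l ^ a + m ^ a = l ^ b + m ^ b) : ∃ k : ℕ, 0 < k ∧ l ^ k = 1 := by
  have hl : l ≠ 0 := left_ne_zero_of_mul_eq_one hp
  have key : ∀ a b : ℕ, a < b → l ^ a = l ^ b → ∃ k : ℕ, 0 < k ∧ l ^ k = 1 := by
    intro a b hab h1
    refine ⟨b - a, Nat.sub_pos_of_lt hab, ?_⟩
    have h2 : l ^ a * l ^ (b - a) = l ^ a * 1 := by
      rw [← pow_add, Nat.add_sub_cancel' hab.le, mul_one, h1]
    exact mul_left_cancel₀ (pow_ne_zero _ hl) h2
  have h1 : (l ^ a - l ^ b) * (1 - m ^ (a + b)) = 0 := by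
    have e1 : l ^ a * m ^ a = 1 := by rw [← mul_pow, hp, one_pow]
    have e2 : l ^ b * m ^ b = 1 := by rw [← mul_pow, hp, one_pow]
    rw [pow_add]
    linear_combination h - m ^ b * e1 + m ^ a * e2
  rcases mul_eq_zero.mp h1 with h2 | h2
  · rcases lt_or_gt_of_ne ha with h3 | h3
    · exact key a b h3 (sub_eq_zero.mp h2)
    · exact key b a h3 (sub_eq_zero.mp h2).symm
  · refine ⟨a + b, by omega, ?_⟩
    have h3 : m ^ (a + b) = 1 := (sub_eq_zero.mp h2).symm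
    have h4 : l ^ (a + b) * m ^ (a + b) = 1 := by rw [← mul_pow, hp, one_pow]
    rw [h3, mul_one] at h4
    exact h4

/-- divisibility of the exponents -/
lemma dvd_of (n : ℕ) (t : GL (Fin 2) (MvPolynomial (Fin n) ℤ))
    (N : Matrix (Fin 2) (Fin 2) (MvPolynomial (Fin n) ℤ)) (hN : N ≠ 0) (p q : ℤ) (hp : p ≠ 0)
    (h : p • ((t : Matrix _ _ (MvPolynomial (Fin n) ℤ)) * N *
      ((t⁻¹ : GL (Fin 2) (MvPolynomial (Fin n) ℤ)) : Matrix _ _ (MvPolynomial (Fin n) ℤ))) =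
      q • N) : p ∣ q := by
  have key : ∀ k : ℕ, (p ^ k) • (((t ^ k : GL (Fin 2) (MvPolynomial (Fin n) ℤ)) :
      Matrix _ _ (MvPolynomial (Fin n) ℤ)) * N *
      (((t ^ k)⁻¹ : GL (Fin 2) (MvPolynomial (Fin n) ℤ)) :
        Matrix _ _ (MvPolynomial (Fin n) ℤ))) = (q ^ k) • N := by
    intro k
    induction k with
    | zero => simp
    | succ k ih =>
      have e1 : (t ^ (k + 1))⁻¹ = (t ^ k)⁻¹ * t⁻¹ := by rw [pow_succ', _root_.mul_inv_rev]
      rw [e1, pow_succ' t, Units.val_mul, Units.val_mul]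
      have e2 : (p ^ (k + 1)) • ((t : Matrix (Fin 2) (Fin 2) (MvPolynomial (Fin n) ℤ)) *
          ((t ^ k : GL (Fin 2) (MvPolynomial (Fin n) ℤ)) :
            Matrix (Fin 2) (Fin 2) (MvPolynomial (Fin n) ℤ)) * N *
          ((((t ^ k)⁻¹ : GL (Fin 2) (MvPolynomial (Fin n) ℤ)) :
            Matrix (Fin 2) (Fin 2) (MvPolynomial (Fin n) ℤ)) *
          ((t⁻¹ : GL (Fin 2) (MvPolynomial (Fin n) ℤ)) :
            Matrix (Fin 2) (Fin 2) (MvPolynomial (Fin n) ℤ)))) =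
          p • ((t : Matrix (Fin 2) (Fin 2) (MvPolynomial (Fin n) ℤ)) *
            ((p ^ k) • (((t ^ k : GL (Fin 2) (MvPolynomial (Fin n) ℤ)) :
              Matrix (Fin 2) (Fin 2) (MvPolynomial (Fin n) ℤ)) * N *
            (((t ^ k)⁻¹ : GL (Fin 2) (MvPolynomial (Fin n) ℤ)) :
              Matrix (Fin 2) (Fin 2) (MvPolynomial (Fin n) ℤ)))) *
            ((t⁻¹ : GL (Fin 2) (MvPolynomial (Fin n) ℤ)) :
              Matrix (Fin 2) (Fin 2) (MvPolynomial (Fin n) ℤ))) := by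
        rw [mul_smul_comm, smul_mul_assoc, smul_smul, ← pow_succ']
        simp only [mul_assoc]
      rw [e2, ih, mul_smul_comm, smul_mul_assoc, smul_comm p (q ^ k), h, smul_smul, ← pow_succ]
  obtain ⟨i, j, hij⟩ : ∃ i j, N i j ≠ 0 := by
    by_contra hc
    push Not at hc
    exact hN (Matrix.ext fun i j => hc i j)
  obtain ⟨d, hd⟩ := MvPolynomial.ne_zero_iff.mp hij
  obtain ⟨z, hz⟩ : ∃ z : ℤ, z = MvPolynomial.coeff d (N i j) := ⟨_, rfl⟩
  have hz0 : z ≠ 0 := by rw [hz]; exact hd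
  have hdiv : ∀ k : ℕ, p ^ k ∣ q ^ k * z := by
    intro k
    have h1 := congrArg (fun X : Matrix (Fin 2) (Fin 2) (MvPolynomial (Fin n) ℤ) =>
      MvPolynomial.coeff d (X i j)) (key k)
    simp only [Matrix.smul_apply, MvPolynomial.coeff_smul] at h1
    rw [smul_eq_mul, smul_eq_mul, ← hz] at h1
    exact ⟨_, h1.symm⟩
  obtain ⟨g, p', q', hg, hco, e1, e2⟩ : ∃ g p' q' : ℤ, g ≠ 0 ∧ IsCoprime p' q' ∧
      p = p' * g ∧ q = q' * g := by
    have hg : 0 < Int.gcd p q := Int.gcd_pos_of_ne_zero_left _ hp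
    obtain ⟨p', q', h1, h2, h3⟩ := Int.exists_gcd_one hg
    exact ⟨_, p', q', by exact_mod_cast hg.ne', Int.isCoprime_iff_gcd_eq_one.mpr h1, h2, h3⟩
  have hu : IsUnit p' := by
    by_contra hnu
    have hfin : FiniteMultiplicity p' z := by
      rw [Int.finiteMultiplicity_iff]
      exact ⟨fun h => hnu (Int.isUnit_iff_natAbs_eq.mpr h), hz0⟩
    obtain ⟨k, hk⟩ := hfin
    apply hk
    have h1 := hdiv (k + 1)
    rw [e1, e2, mul_pow, mul_pow] at h1
    have h2 : p' ^ (k + 1) * g ^ (k + 1) ∣ (q' ^ (k + 1) * z) * g ^ (k + 1) := by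
      convert h1 using 1
      ring
    have h3 : p' ^ (k + 1) ∣ q' ^ (k + 1) * z :=
      (mul_dvd_mul_iff_right (pow_ne_zero _ hg)).mp h2
    exact (hco.pow).dvd_of_dvd_mul_left h3
  rw [e1, e2]
  exact mul_dvd_mul_right hu.dvd g

theorem t_BSL : S_BSL := by
  intro n u t p q hu hp hrel
  have hdu : ((u : Matrix (Fin 2) (Fin 2) (MvPolynomial (Fin n) ℤ)).det) ^ 2 = 1 := by
    have h1 : IsUnit (u : Matrix (Fin 2) (Fin 2) (MvPolynomial (Fin n) ℤ)).det :=
      (Matrix.isUnit_iff_isUnit_det _).mp u.isUnit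
    obtain ⟨r, hr, h2⟩ := MvPolynomial.isUnit_iff_eq_C_of_isReduced.mp h1
    rw [h2, ← map_pow]
    rcases Int.isUnit_iff.mp hr with h3 | h3 <;> rw [h3] <;> simp
  obtain ⟨w, hw⟩ : ∃ w : GL (Fin 2) (MvPolynomial (Fin n) ℤ), w = u ^ 2 := ⟨_, rfl⟩
  have hdw : (w : Matrix (Fin 2) (Fin 2) (MvPolynomial (Fin n) ℤ)).det = 1 := by
    rw [hw, Units.val_pow_eq_pow_val, Matrix.det_pow, hdu]
  have hconj : ∀ (k : ℕ), t * (u ^ k) ^ p * t⁻¹ = (u ^ k) ^ q := by
    intro k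
    have h1 : (t * u ^ p * t⁻¹) ^ k = (u ^ q) ^ k := by rw [hrel]
    rw [conj_pow] at h1
    rw [← zpow_natCast u k, ← _root_.zpow_mul, ← _root_.zpow_mul, mul_comm, mul_comm (k : ℤ) q, _root_.zpow_mul,
      _root_.zpow_mul, zpow_natCast, zpow_natCast, h1]
  -- eigenvalues
  obtain ⟨K, iK, iA, f, hf⟩ : ∃ (K : Type) (_ : Field K) (_ : IsAlgClosed K)
      (f : MvPolynomial (Fin n) ℤ →+* K), Function.Injective f := by
    refine ⟨AlgebraicClosure (FractionRing (MvPolynomial (Fin n) ℤ)), inferInstance,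
      inferInstance, (algebraMap (FractionRing (MvPolynomial (Fin n) ℤ)) _).comp
        (algebraMap (MvPolynomial (Fin n) ℤ) _), ?_⟩
    rw [RingHom.coe_comp]
    exact (algebraMap (FractionRing (MvPolynomial (Fin n) ℤ)) _).injective.comp
      (IsFractionRing.injective _ _)
  have hch : CharZero K := charZero_of_injective_ringHom hf
  obtain ⟨l, m, hs, hlm⟩ : ∃ l m : K,
      f (w : Matrix (Fin 2) (Fin 2) (MvPolynomial (Fin n) ℤ)).trace = l + m ∧ l * m = 1 := by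
    obtain ⟨τ, hτ⟩ : ∃ τ : K, τ =
      f (w : Matrix (Fin 2) (Fin 2) (MvPolynomial (Fin n) ℤ)).trace := ⟨_, rfl⟩
    rw [← hτ]
    obtain ⟨s, hs⟩ := IsAlgClosed.exists_eq_mul_self (τ ^ 2 - 4)
    refine ⟨(τ + s) / 2, (τ - s) / 2, by ring, ?_⟩
    linear_combination (1 / 4 : K) * hs
  have htr : l ^ p.natAbs + m ^ p.natAbs = l ^ q.natAbs + m ^ q.natAbs := by
    rw [← tr_zpow f l m w hdw hs hlm p, ← tr_zpow f l m w hdw hs hlm q]
    have h1 := hconj 2
    rw [← hw] at h1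
    rw [← h1, Units.val_mul, Units.val_mul, Matrix.trace_mul_comm, ← mul_assoc, ← Units.val_mul,
      inv_mul_cancel, Units.val_one, one_mul]
  by_contra hne
  have hne' : p.natAbs ≠ q.natAbs := by
    intro h
    rcases Int.natAbs_eq_natAbs_iff.mp h with h | h
    · exact hne (Or.inl h.symm)
    · exact hne (Or.inr (by omega))
  obtain ⟨k, hk, hlk⟩ := root_unity l m hlm _ _ hne' htr
  have hmk : m ^ k = 1 := by
    have h4 : l ^ k * m ^ k = 1 := by rw [← mul_pow, hlm, one_pow]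
    rw [hlk, one_mul] at h4
    exact h4
  obtain ⟨x, hx⟩ : ∃ x : GL (Fin 2) (MvPolynomial (Fin n) ℤ), x = u ^ (2 * k) := ⟨_, rfl⟩
  have hxw : x = w ^ k := by rw [hx, hw, pow_mul]
  have hx1 : x ≠ 1 := by rw [hx]; exact hu _ (by omega)
  have htx : (x : Matrix (Fin 2) (Fin 2) (MvPolynomial (Fin n) ℤ)).trace = 2 := by
    apply hf
    rw [hxw, Units.val_pow_eq_pow_val, (tr_pow f l m _ hdw hs hlm k).1, hlk, hmk]
    rw [map_ofNat]
    norm_num
  have hdx : (x : Matrix (Fin 2) (Fin 2) (MvPolynomial (Fin n) ℤ)).det = 1 := by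
    rw [hxw, Units.val_pow_eq_pow_val, Matrix.det_pow, hdw, one_pow]
  obtain ⟨N, hN⟩ : ∃ N : Matrix (Fin 2) (Fin 2) (MvPolynomial (Fin n) ℤ),
      N = (x : Matrix (Fin 2) (Fin 2) (MvPolynomial (Fin n) ℤ)) - 1 := ⟨_, rfl⟩
  have hxN : (x : Matrix (Fin 2) (Fin 2) (MvPolynomial (Fin n) ℤ)) = 1 + N := by
    rw [hN]; abel
  have hNN : N * N = 0 := by
    have h1 := sq_eq _ hdx
    rw [htx] at h1
    rw [hN, sub_mul, mul_sub, h1, mul_one, one_mul, two_smul]
    abel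
  have hN0 : N ≠ 0 := by
    intro h
    apply hx1
    apply Units.ext
    rw [hxN, h, add_zero, Units.val_one]
  have hr1 : p • ((t : Matrix (Fin 2) (Fin 2) (MvPolynomial (Fin n) ℤ)) * N *
      ((t⁻¹ : GL (Fin 2) (MvPolynomial (Fin n) ℤ)) :
        Matrix (Fin 2) (Fin 2) (MvPolynomial (Fin n) ℤ))) = q • N := by
    have h1 := congrArg (fun X : GL (Fin 2) (MvPolynomial (Fin n) ℤ) =>
      (X : Matrix (Fin 2) (Fin 2) (MvPolynomial (Fin n) ℤ))) (hconj (2 * k))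

    rw [← hx, Units.val_mul, Units.val_mul, zpow_one_add x N hNN hxN, zpow_one_add x N hNN hxN,
      mul_add, mul_one, add_mul, ← Units.val_mul, mul_inv_cancel, Units.val_one, mul_smul_comm,
      smul_mul_assoc] at h1
    exact add_left_cancel h1
  have hq : q ≠ 0 := by
    intro h
    rw [h, zero_smul, smul_eq_zero] at hr1
    rcases hr1 with h1 | h1
    · exact hp h1
    · apply hN0
      have h2 : ((t⁻¹ : GL (Fin 2) (MvPolynomial (Fin n) ℤ)) :
        Matrix (Fin 2) (Fin 2) (MvPolynomial (Fin n) ℤ)) *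
        ((t : Matrix (Fin 2) (Fin 2) (MvPolynomial (Fin n) ℤ)) * N *
        ((t⁻¹ : GL (Fin 2) (MvPolynomial (Fin n) ℤ)) :
        Matrix (Fin 2) (Fin 2) (MvPolynomial (Fin n) ℤ))) *
        (t : Matrix (Fin 2) (Fin 2) (MvPolynomial (Fin n) ℤ)) = N := by
        have e1 : ((t⁻¹ : GL (Fin 2) (MvPolynomial (Fin n) ℤ)) :
          Matrix (Fin 2) (Fin 2) (MvPolynomial (Fin n) ℤ)) *
          (t : Matrix (Fin 2) (Fin 2) (MvPolynomial (Fin n) ℤ)) = 1 := by
          rw [← Units.val_mul, inv_mul_cancel, Units.val_one]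
        rw [mul_assoc, mul_assoc, e1, mul_one, ← mul_assoc, e1, one_mul]
      rw [← h2, h1, mul_zero, zero_mul]
  have hr2 : q • (((t⁻¹ : GL (Fin 2) (MvPolynomial (Fin n) ℤ)) :
        Matrix (Fin 2) (Fin 2) (MvPolynomial (Fin n) ℤ)) * N *
      (((t⁻¹)⁻¹ : GL (Fin 2) (MvPolynomial (Fin n) ℤ)) :
        Matrix (Fin 2) (Fin 2) (MvPolynomial (Fin n) ℤ))) = p • N := by
    rw [inv_inv]
    have e1 : ((t⁻¹ : GL (Fin 2) (MvPolynomial (Fin n) ℤ)) :
      Matrix (Fin 2) (Fin 2) (MvPolynomial (Fin n) ℤ)) *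
      (t : Matrix (Fin 2) (Fin 2) (MvPolynomial (Fin n) ℤ)) = 1 := by
      rw [← Units.val_mul, inv_mul_cancel, Units.val_one]
    rw [← smul_mul_assoc, ← mul_smul_comm, ← hr1, mul_smul_comm, smul_mul_assoc, mul_assoc,
      mul_assoc, e1, mul_one, ← mul_assoc, e1, one_mul]
  have h5 := dvd_of n t N hN0 p q hp hr1
  have h6 := dvd_of n t⁻¹ N hN0 q p hq hr2
  exact hne' (Nat.dvd_antisymm (Int.natAbs_dvd_natAbs.mpr h5) (Int.natAbs_dvd_natAbs.mpr h6))

end Pool.Agent.U630.FSP
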